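import Mathlib
import Pool.Agent.Q304.KZ.Gns

set_option autoImplicit false

/-!
# The family of Kazhdan subsets of `ℤ` is Borel
-/

open Set Filter Topology ComplexConjugate

namespace Pool.Agent.Results.MP_6f1842_lc.KazhdanBorel

/-- Kazhdan subsets of `ℤ`: there is `ε > 0` such that every unitary operator `U` on a complex
Hilbert space having a unit vector `x` with `sup_{n ∈ Q} ‖U^n x - x‖ < ε` (that is, all these norms
are at most some `δ < ε`) has a nonzero fixed vector. -/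
def IsKazhdan (Q : Set ℤ) : Prop :=
  ∃ ε : ℝ, 0 < ε ∧ ∀ (H : Type) [NormedAddCommGroup H] [InnerProductSpace ℂ H] [CompleteSpace H]
    (U : H ≃ₗᵢ[ℂ] H) (x : H), ‖x‖ = 1 → (∃ δ < ε, ∀ n ∈ Q, ‖(U ^ n) x - x‖ ≤ δ) →
      ∃ y : H, y ≠ 0 ∧ U y = y

/-- Generating subsets of `ℤ`. -/
def IsGenerating (Q : Set ℤ) : Prop := AddSubgroup.closure Q = ⊤

/-- The subset of `ℤ` with indicator function `f`. -/
def supp (f : ℤ → Bool) : Set ℤ := {n | f n = true}

open Pool.Agent.Q304.KZ

/-- Positive definite functions with `φ 0 = 1` whose partial sums are coboundaries, quantitatively. -/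
def Good (R : ℕ) (φ : ℤ → ℂ) : Prop :=
  PD φ ∧ φ 0 = 1 ∧ (∀ n, ‖φ n‖ ≤ 1) ∧
    ∀ N : ℕ, (∑ i ∈ Finset.range N, ∑ j ∈ Finset.range N, φ ((j : ℤ) - i)).re ≤ R

/-- The closed sets of the representation. -/
def F (m R : ℕ) : Set (ℤ → Bool) :=
  {f | ∃ φ, Good R φ ∧ ∀ n, f n = true → 2 - 2 * (φ n).re ≤ 1 / ((m : ℝ) + 1)}

lemma isClosed_good (R : ℕ) : IsClosed {φ : ℤ → ℂ | Good R φ} := by
  have h1 : IsClosed {φ : ℤ → ℂ | PD φ} := by
    have e : {φ : ℤ → ℂ | PD φ} = (⋂ n, {φ : ℤ → ℂ | φ (-n) = conj (φ n)}) ∩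
        ⋂ v : ℤ →₀ ℂ, {φ : ℤ → ℂ | 0 ≤ (form φ v).re} := by
      ext φ
      simp [PD]
    rw [e]
    refine IsClosed.inter (isClosed_iInter fun n => ?_) (isClosed_iInter fun v => ?_)
    · exact isClosed_eq (continuous_apply _) (Complex.continuous_conj.comp (continuous_apply _))
    · refine isClosed_le continuous_const (Complex.continuous_re.comp ?_)
      unfold form
      refine continuous_finsetSum _ fun m _ => continuous_finsetSum _ fun n _ => ?_
      exact continuous_const.mul (continuous_apply _)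
  have h2 : IsClosed {φ : ℤ → ℂ | φ 0 = 1} := isClosed_eq (continuous_apply _) continuous_const
  have h3 : IsClosed {φ : ℤ → ℂ | ∀ n, ‖φ n‖ ≤ 1} := by
    have e : {φ : ℤ → ℂ | ∀ n, ‖φ n‖ ≤ 1} = ⋂ n, {φ : ℤ → ℂ | ‖φ n‖ ≤ 1} := by
      ext φ; simp
    rw [e]
    exact isClosed_iInter fun n => isClosed_le (continuous_apply n).norm continuous_const
  have h4 : IsClosed {φ : ℤ → ℂ | ∀ N : ℕ,
      (∑ i ∈ Finset.range N, ∑ j ∈ Finset.range N, φ ((j : ℤ) - i)).re ≤ R} := by
    have e : {φ : ℤ → ℂ | ∀ N : ℕ,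
        (∑ i ∈ Finset.range N, ∑ j ∈ Finset.range N, φ ((j : ℤ) - i)).re ≤ R} =
        ⋂ N : ℕ, {φ : ℤ → ℂ |
          (∑ i ∈ Finset.range N, ∑ j ∈ Finset.range N, φ ((j : ℤ) - i)).re ≤ R} := by
      ext φ; simp
    rw [e]
    refine isClosed_iInter fun N => isClosed_le (Complex.continuous_re.comp ?_) continuous_const
    exact continuous_finsetSum _ fun i _ => continuous_finsetSum _ fun j _ => continuous_apply _
  have : {φ : ℤ → ℂ | Good R φ} = {φ : ℤ → ℂ | PD φ} ∩ ({φ : ℤ → ℂ | φ 0 = 1} ∩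
      ({φ : ℤ → ℂ | ∀ n, ‖φ n‖ ≤ 1} ∩ {φ : ℤ → ℂ | ∀ N : ℕ,
      (∑ i ∈ Finset.range N, ∑ j ∈ Finset.range N, φ ((j : ℤ) - i)).re ≤ R})) := by
    ext φ; rfl
  rw [this]
  exact h1.inter (h2.inter (h3.inter h4))

lemma isClosed_F (m R : ℕ) : IsClosed (F m R) := by
  let S : Set ((ℤ → Bool) × (ℤ → ℂ)) :=
    {p | Good R p.2 ∧ ∀ n, p.1 n = true → 2 - 2 * (p.2 n).re ≤ 1 / ((m : ℝ) + 1)}
  have hS : IsClosed S := by
    have e : S = Prod.snd ⁻¹' {φ : ℤ → ℂ | Good R φ} ∩
        ⋂ n, ({p : (ℤ → Bool) × (ℤ → ℂ) | p.1 n = false} ∪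
          {p : (ℤ → Bool) × (ℤ → ℂ) | 2 - 2 * (p.2 n).re ≤ 1 / ((m : ℝ) + 1)}) := by
      ext p
      simp only [S, mem_ofPred_eq, mem_inter_iff, mem_preimage, mem_iInter, mem_union]
      refine and_congr_right fun _ => forall_congr' fun n => ?_
      rcases h : p.1 n with _ | _ <;> simp
    rw [e]
    refine ((isClosed_good R).preimage continuous_snd).inter (isClosed_iInter fun n => ?_)
    refine IsClosed.union ?_ ?_
    · exact isClosed_eq ((continuous_apply n).comp continuous_fst) continuous_const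
    · refine isClosed_le (continuous_const.sub (continuous_const.mul
        (Complex.continuous_re.comp ((continuous_apply n).comp continuous_snd)))) continuous_const
  have hK : IsCompact ((univ : Set (ℤ → Bool)) ×ˢ
      (Set.pi univ fun _ : ℤ => Metric.closedBall (0 : ℂ) 1)) :=
    isCompact_univ.prod (isCompact_univ_pi fun _ => isCompact_closedBall _ _)
  have hsub : S ⊆ (univ : Set (ℤ → Bool)) ×ˢ
      (Set.pi univ fun _ : ℤ => Metric.closedBall (0 : ℂ) 1) := by
    rintro ⟨f, φ⟩ hp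
    refine ⟨mem_univ _, fun n _ => ?_⟩
    rw [mem_closedBall_zero_iff]
    exact hp.1.2.2.1 n
  have hSc : IsCompact S := hK.of_isClosed_subset hS hsub
  have e : F m R = Prod.fst '' S := by
    ext f
    constructor
    · rintro ⟨φ, h1, h2⟩
      exact ⟨(f, φ), ⟨h1, h2⟩, rfl⟩
    · rintro ⟨⟨f', φ⟩, ⟨h1, h2⟩, rfl⟩
      exact ⟨φ, h1, h2⟩
  rw [e]
  exact (hSc.image continuous_fst).isClosed

section

variable {H : Type} [NormedAddCommGroup H] [InnerProductSpace ℂ H]

lemma inner_pow (U : H ≃ₗᵢ[ℂ] H) (x y : H) (m n : ℤ) :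
    inner ℂ ((U ^ m) x) ((U ^ n) y) = inner ℂ x ((U ^ (n - m)) y) := by
  have : (U ^ n) y = (U ^ m) ((U ^ (n - m)) y) := by
    rw [← mul_app, ← zpow_add]
    congr 2; ring
  rw [this, LinearIsometryEquiv.inner_map_map]

lemma gram (U : H ≃ₗᵢ[ℂ] H) (x : H) (N : ℕ) :
    (∑ i ∈ Finset.range N, ∑ j ∈ Finset.range N, inner ℂ x ((U ^ ((j : ℤ) - i)) x)).re =
      ‖∑ i ∈ Finset.range N, (U ^ (i : ℤ)) x‖ ^ 2 := by
  rw [norm_sq_eq_re_inner (𝕜 := ℂ), sum_inner]
  change _ = Complex.re _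
  congr 1
  refine Finset.sum_congr rfl fun i _ => ?_
  rw [inner_sum]
  refine Finset.sum_congr rfl fun j _ => ?_
  rw [inner_pow]

lemma dist_sq (U : H ≃ₗᵢ[ℂ] H) (x : H) (hx : ‖x‖ = 1) (n : ℤ) :
    ‖(U ^ n) x - x‖ ^ 2 = 2 - 2 * (inner ℂ x ((U ^ n) x)).re := by
  rw [norm_sub_sq (𝕜 := ℂ), LinearIsometryEquiv.norm_map, hx, inner_re_symm]
  change _ - 2 * Complex.re _ + _ = _
  ring

lemma pow_fix (U : H ≃ₗᵢ[ℂ] H) {y : H} (hy : U y = y) (n : ℤ) : (U ^ n) y = y := by
  induction n using Int.induction_on with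
  | zero => simp
  | succ i ih => rw [zpow_add_one, mul_app, hy, ih]
  | pred i ih =>
    have h1 : (U ^ (-(i:ℤ) - 1)) (U y) = y := by
      rw [← mul_app, ← zpow_add_one, sub_add_cancel, ih]
    rwa [hy] at h1

/-- If `U` has no nonzero fixed vector then `1 - U` has dense range. -/
lemma dense_range [CompleteSpace H] (U : H ≃ₗᵢ[ℂ] H) (hU : ∀ y, U y = y → y = 0) (x : H)
    {ε : ℝ} (hε : 0 < ε) : ∃ w : H, ‖x - (w - U w)‖ < ε := by
  let T : H →ₗ[ℂ] H := LinearMap.id - U.toLinearEquiv.toLinearMap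
  have hT : ∀ w, T w = w - U w := fun w => rfl
  have h1 : (LinearMap.range T)ᗮ = ⊥ := by
    rw [Submodule.eq_bot_iff]
    intro y hy
    apply hU
    have h2 : ∀ v, inner ℂ (U y - y) v = 0 := by
      intro v
      have h3 : inner ℂ (U.symm v - U (U.symm v)) y = 0 :=
        (Submodule.mem_orthogonal _ _).1 hy _ ⟨U.symm v, hT _⟩
      have h4 : inner ℂ y (U.symm v) - inner ℂ y v = 0 := by
        rw [← inner_sub_right, ← inner_conj_symm]
        rw [LinearIsometryEquiv.apply_symm_apply] at h3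
        rw [h3, map_zero]
      rw [inner_sub_left]
      have h5 : inner ℂ (U y) v = inner ℂ y (U.symm v) := by
        conv_lhs => rw [← LinearIsometryEquiv.apply_symm_apply U v]
        rw [LinearIsometryEquiv.inner_map_map]
      rw [h5, h4]
    exact sub_eq_zero.1 (inner_self_eq_zero.1 (h2 (U y - y)))
  have h2 : (LinearMap.range T).topologicalClosure = ⊤ :=
    Submodule.topologicalClosure_eq_top_iff.2 h1
  have h3 : x ∈ closure (LinearMap.range T : Set H) := by
    rw [← Submodule.topologicalClosure_coe, h2]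
    trivial
  obtain ⟨_, ⟨w, rfl⟩, hw⟩ := Metric.mem_closure_iff.1 h3 ε hε
  refine ⟨w, ?_⟩
  rw [dist_eq_norm] at hw
  exact hw

end

lemma not_kazhdan_iff (f : ℤ → Bool) : ¬ IsKazhdan (supp f) ↔ ∀ m, ∃ R, f ∈ F m R := by
  constructor
  · intro h m
    unfold IsKazhdan at h
    push Not at h
    set η : ℝ := 1 / (6 * ((m : ℝ) + 1)) with hη
    have hm : (0 : ℝ) < (m : ℝ) + 1 := by positivity
    have hη0 : 0 < η := by positivity
    have hη1 : η ≤ 1 / 6 := by
      rw [hη]
      apply one_div_le_one_div_of_le (by norm_num)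
      have : (0 : ℝ) ≤ m := Nat.cast_nonneg m
      linarith
    obtain ⟨H, i1, i2, i3, U, x, hx, ⟨δ, hδ, hδ2⟩, hfix⟩ := h η hη0
    have hU : ∀ y, U y = y → y = 0 := by
      intro y hy
      by_contra hne
      exact hfix y hne hy
    obtain ⟨w, hw⟩ := dense_range U hU x hη0
    set z := w - U w with hz
    have hz1 : 1 - η ≤ ‖z‖ := by
      have := norm_sub_norm_le x z
      rw [hx] at this
      linarith
    have hz0 : 0 < ‖z‖ := by linarith
    have hzn : ∀ n ∈ supp f, ‖(U ^ n) z - z‖ ≤ 3 * η := by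
      intro n hn
      have e : (U ^ n) z - z = ((U ^ n) x - x) - (U ^ n) (x - z) + (x - z) := by
        have h1 : (U ^ n) (x - z) = (U ^ n) x - (U ^ n) z := map_sub _ _ _
        rw [h1]; abel
      rw [e]
      calc _ ≤ ‖((U ^ n) x - x) - (U ^ n) (x - z)‖ + ‖x - z‖ := norm_add_le _ _
        _ ≤ ‖(U ^ n) x - x‖ + ‖(U ^ n) (x - z)‖ + ‖x - z‖ := by
            gcongr; exact norm_sub_le _ _
        _ ≤ δ + η + η := by
            rw [LinearIsometryEquiv.norm_map]
            gcongr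
            exact hδ2 n hn
        _ ≤ _ := by linarith
    set c : ℂ := ((‖z‖⁻¹ : ℝ) : ℂ) with hc
    have hcn : ‖c‖ = ‖z‖⁻¹ := by
      rw [hc, Complex.norm_real, Real.norm_of_nonneg (inv_nonneg.2 hz0.le)]
    set x' := c • z with hx'
    have hx1 : ‖x'‖ = 1 := by
      rw [hx', norm_smul, hcn, inv_mul_cancel₀ hz0.ne']
    have hxn : ∀ n ∈ supp f, ‖(U ^ n) x' - x'‖ ≤ 6 * η := by
      intro n hn
      rw [hx', map_smul, ← smul_sub, norm_smul, hcn]
      calc _ ≤ (1 - η)⁻¹ * (3 * η) :=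
            mul_le_mul (inv_anti₀ (by linarith) hz1) (hzn n hn) (norm_nonneg _)
              (inv_nonneg.2 (by linarith))
        _ ≤ 2 * (3 * η) := by
            gcongr
            rw [inv_le_comm₀ (by linarith) (by norm_num)]
            linarith
        _ = _ := by ring
    refine ⟨⌈(2 * ‖w‖ / ‖z‖) ^ 2⌉₊, fun n => inner ℂ x' ((U ^ n) x'), ⟨pd_coeff U x', ?_, ?_, ?_⟩,
      ?_⟩
    · simp only [zpow_zero]
      change inner ℂ x' x' = 1
      rw [inner_self_eq_norm_sq_to_K, hx1]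
      simp
    · intro n
      refine (norm_inner_le_norm _ _).trans ?_
      rw [LinearIsometryEquiv.norm_map, hx1, mul_one]
    · intro N
      rw [gram]
      refine le_trans ?_ (Nat.le_ceil _)
      have e : ∑ i ∈ Finset.range N, (U ^ (i : ℤ)) x' = c • (w - (U ^ (N : ℤ)) w) := by
        have h1 : ∀ i : ℕ, (U ^ (i : ℤ)) x' =
            c • (U ^ (i : ℤ)) w - c • (U ^ ((i + 1 : ℕ) : ℤ)) w := by
          intro i
          rw [hx', hz, map_smul, map_sub, smul_sub, Nat.cast_succ, zpow_add_one, mul_app]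
        rw [Finset.sum_congr rfl fun i _ => h1 i, Finset.sum_range_sub', smul_sub]
        simp
      rw [e, norm_smul, hcn]
      have h2 : ‖w - (U ^ (N : ℤ)) w‖ ≤ 2 * ‖w‖ := by
        refine (norm_sub_le _ _).trans ?_
        rw [LinearIsometryEquiv.norm_map]
        linarith
      have h3 : ‖z‖⁻¹ * ‖w - (U ^ (N : ℤ)) w‖ ≤ 2 * ‖w‖ / ‖z‖ := by
        rw [div_eq_inv_mul]
        gcongr
      gcongr
    · intro n hn
      change 2 - 2 * (inner ℂ x' ((U ^ n) x')).re ≤ _
      rw [← dist_sq U x' hx1 n]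
      calc _ ≤ (6 * η) ^ 2 := by
            gcongr
            exact hxn n hn
        _ = (1 / ((m : ℝ) + 1)) ^ 2 := by
            rw [hη]
            congr 1
            field_simp
        _ ≤ 1 / ((m : ℝ) + 1) := by
            have h1 : 1 / ((m : ℝ) + 1) ≤ 1 := by
              rw [div_le_one hm]
              have : (0 : ℝ) ≤ m := Nat.cast_nonneg m
              linarith
            have h0 : 0 ≤ 1 / ((m : ℝ) + 1) := by positivity
            nlinarith
  · rintro h ⟨ε, hε, hK⟩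
    obtain ⟨m, hm⟩ := exists_nat_one_div_lt (show (0 : ℝ) < ε ^ 2 by positivity)
    obtain ⟨R, φ, ⟨hpd, h0, -, hsum⟩, hφ⟩ := h m
    obtain ⟨H, i1, i2, i3, U, x, hx, hcyc⟩ := gns hpd
    have hx1 : ‖x‖ = 1 := by
      have h1 : ‖x‖ ^ 2 = 1 := by
        have := hx 0
        rw [zpow_zero, h0] at this
        change inner ℂ x x = 1 at this
        rw [norm_sq_eq_re_inner (𝕜 := ℂ), this]
        simp
      exact (pow_eq_one_iff_of_nonneg (norm_nonneg _) two_ne_zero).1 h1
    obtain ⟨y, hy0, hy⟩ := hK H U x hx1 ⟨Real.sqrt (1 / ((m : ℝ) + 1)), by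
      rw [Real.sqrt_lt' hε]; exact hm, fun n hn => by
        apply Real.le_sqrt_of_sq_le
        rw [dist_sq U x hx1, hx]
        exact hφ n hn⟩
    apply hy0
    apply hcyc
    have hconst : ∀ n : ℤ, inner ℂ y ((U ^ n) x) = inner ℂ y x := by
      intro n
      have := inner_pow U y x n n
      rw [sub_self, zpow_zero, pow_fix U hy] at this
      exact this
    have hz : inner ℂ y x = 0 := by
      by_contra hne
      have hpos : 0 < ‖inner ℂ y x‖ := norm_pos_iff.2 hne
      have hbd : ∀ N : ℕ, (N : ℝ) * ‖inner ℂ y x‖ ≤ ‖y‖ * Real.sqrt R := by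
        intro N
        have h1 : inner ℂ y (∑ i ∈ Finset.range N, (U ^ (i : ℤ)) x) = (N : ℂ) * inner ℂ y x := by
          have h0 : ∀ i ∈ Finset.range N, inner ℂ y ((U ^ (i : ℤ)) x) = inner ℂ y x :=
            fun i _ => hconst i
          rw [inner_sum, Finset.sum_congr rfl h0]
          simp
        have h2 : ‖∑ i ∈ Finset.range N, (U ^ (i : ℤ)) x‖ ≤ Real.sqrt R := by
          apply Real.le_sqrt_of_sq_le
          rw [← gram]
          have := hsum N
          simp only [← hx] at this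
          exact this
        have h3 := norm_inner_le_norm (𝕜 := ℂ) y (∑ i ∈ Finset.range N, (U ^ (i : ℤ)) x)
        rw [h1, norm_mul, Complex.norm_natCast] at h3
        exact h3.trans (by gcongr)
      obtain ⟨N, hN⟩ := exists_nat_gt (‖y‖ * Real.sqrt R / ‖inner ℂ y x‖)
      rw [div_lt_iff₀ hpos] at hN
      exact absurd (hbd N) (not_le.2 hN)
    intro n
    rw [hconst, hz]

lemma generating_iff (Q : Set ℤ) :
    IsGenerating Q ↔ ∃ s : Finset ℤ, (s : Set ℤ) ⊆ Q ∧ (1 : ℤ) ∈ AddSubgroup.closure (s : Set ℤ) := by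
  constructor
  · intro h
    have h1 : (1 : ℤ) ∈ AddSubgroup.closure Q := by
      rw [show AddSubgroup.closure Q = ⊤ from h]; trivial
    have key : ∀ x ∈ AddSubgroup.closure Q, ∃ s : Finset ℤ, (s : Set ℤ) ⊆ Q ∧
        x ∈ AddSubgroup.closure (s : Set ℤ) := by
     intro x hx
     induction hx using AddSubgroup.closure_induction with
    | mem x hx => exact ⟨{x}, by simpa using hx, AddSubgroup.subset_closure (by simp)⟩
    | zero => exact ⟨∅, by simp, AddSubgroup.zero_mem _⟩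
    | add x y _ _ hx hy =>
      obtain ⟨s, hs, hxs⟩ := hx
      obtain ⟨t, ht, hyt⟩ := hy
      refine ⟨s ∪ t, by simp [hs, ht], AddSubgroup.add_mem _ ?_ ?_⟩
      · exact AddSubgroup.closure_mono (by simp) hxs
      · exact AddSubgroup.closure_mono (by simp) hyt
    | neg x _ hx =>
      obtain ⟨s, hs, hxs⟩ := hx
      exact ⟨s, hs, AddSubgroup.neg_mem _ hxs⟩
    exact key 1 h1
  · rintro ⟨s, hs, h1⟩
    rw [IsGenerating, eq_top_iff]
    intro n _
    have h2 : (1 : ℤ) ∈ AddSubgroup.closure Q := AddSubgroup.closure_mono hs h1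
    have := AddSubgroup.zsmul_mem _ h2 n
    simpa using this

lemma isOpen_generating : IsOpen {f : ℤ → Bool | IsGenerating (supp f)} := by
  classical
  have e : {f : ℤ → Bool | IsGenerating (supp f)} =
      ⋃ s ∈ {s : Finset ℤ | (1 : ℤ) ∈ AddSubgroup.closure (s : Set ℤ)},
        ⋂ n ∈ s, {f : ℤ → Bool | f n = true} := by
    ext f
    simp only [mem_ofPred_eq, generating_iff, mem_iUnion, mem_iInter, exists_prop]
    constructor
    · rintro ⟨s, hs, h1⟩
      exact ⟨s, h1, fun n hn => hs hn⟩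
    · rintro ⟨s, h1, hs⟩
      exact ⟨s, fun n hn => hs n hn, h1⟩
  rw [e]
  refine isOpen_biUnion fun s _ => ?_
  refine isOpen_biInter_finset fun n _ => ?_
  have hc : Continuous fun f : ℤ → Bool => f n := continuous_apply n
  exact (isOpen_discrete ({true} : Set Bool)).preimage hc

/-- **Full positive answer to Q1**: the family `𝒦` of Kazhdan subsets of `ℤ` and the family
`¬𝒦₀` of generating non-Kazhdan subsets are Borel in `{0,1}^ℤ`; more precisely the complement of
`𝒦` is a countable intersection of countable unions of closed sets, and so `𝒦` is a countable union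
of `G_δ` sets. -/
theorem result :
    (∃ C : ℕ → ℕ → Set (ℤ → Bool), (∀ m R, IsClosed (C m R)) ∧
      {f | ¬ IsKazhdan (supp f)} = ⋂ m, ⋃ R, C m R) ∧
    @MeasurableSet (ℤ → Bool) (borel _) {f | IsKazhdan (supp f)} ∧
    @MeasurableSet (ℤ → Bool) (borel _) {f | IsGenerating (supp f) ∧ ¬ IsKazhdan (supp f)} := by
  have e : {f : ℤ → Bool | ¬ IsKazhdan (supp f)} = ⋂ m, ⋃ R, F m R := by
    ext f
    simp only [mem_ofPred_eq, not_kazhdan_iff, mem_iInter, mem_iUnion]
  let : MeasurableSpace (ℤ → Bool) := borel _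
  have : BorelSpace (ℤ → Bool) := ⟨rfl⟩
  have hN : MeasurableSet {f : ℤ → Bool | ¬ IsKazhdan (supp f)} := by
    rw [e]
    exact MeasurableSet.iInter fun m => MeasurableSet.iUnion fun R =>
      (isClosed_F m R).measurableSet
  refine ⟨⟨F, isClosed_F, e⟩, ?_, ?_⟩
  · have h2 := hN.compl
    have e2 : {f : ℤ → Bool | ¬ IsKazhdan (supp f)}ᶜ = {f | IsKazhdan (supp f)} := by
      ext f; simp
    rwa [e2] at h2
  · exact isOpen_generating.measurableSet.inter hN

end Pool.Agent.Results.MP_6f1842_lc.KazhdanBorel
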